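import Pool.Agent.R544.CG.Poly

/-!
# Recognising clique graphs in the class `3split₃` is NP-complete

By Roberts and Spencer a finite graph is a clique graph iff its edges are covered by a family of
complete sets with the Helly property.  For a split graph with stable side of degree 3 this is
equivalent to the following: one can select pairs of vertices of the clique side such that among
the three neighbours of every vertex of the stable side exactly one pair is selected, and any three
vertices which are pairwise common neighbours of vertices of the stable side contain a selected
pair.  This is exactly-one-in-three satisfiability: in a complete graph on four vertices all of
whose triples are neighbourhoods, the selected pairs form a perfect matching, so that opposite pairs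
are copies of each other.
-/

namespace Pool.Agent.Results.MP_aad05f_lc.ThreeSplitThreeNPC

open Pool.Agent.NPC Pool.Agent.R544.CG

/-- The recognition of clique graphs in `3split₃` is in NP and NP-hard. -/
theorem result : InNPP CliqueGraphRecognition ∧ NPHardP CliqueGraphRecognition :=
  ⟨inNPP, HardI.toNPHardP hardPr_CG.toHardI⟩

end Pool.Agent.Results.MP_aad05f_lc.ThreeSplitThreeNPC
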